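import Pool.Agent.Helper57.KE.St

/-!
# Project KE, module PT: the pointwise inequality for the test function
-/

set_option autoImplicit false

namespace Pool.Agent.Helper3.KE

open Pool.Agent.Helper57.KE Pool.Agent.Helper57.KR Pool.Agent.Helper65.RG

/-- `(1 - x)^p ≥ (1 - x)(1 + (1 - p) x)` -/
private theorem bern {p x : ℝ} (hp0 : 0 < p) (hp1 : p < 1) (hx0 : 0 ≤ x) (hx1 : x < 1) :
    (1 - x) * (1 + (1 - p) * x) ≤ (1 - x) ^ p := by
  have h1 : 0 < 1 - x := by linarith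
  have h2 : (1 + (-x)) ^ (1 - p) ≤ 1 + (1 - p) * (-x) :=
    rpow_one_add_le_one_add_mul_self (by linarith) (by linarith) (by linarith)
  have h3 : 1 + (-x) = 1 - x := by ring
  rw [h3] at h2
  have h4 : 0 < (1 - x) ^ (1 - p) := Real.rpow_pos_of_pos h1 _
  have h5 : (1 - x) ^ p * (1 - x) ^ (1 - p) = 1 - x := by
    rw [← Real.rpow_add h1, add_sub_cancel, Real.rpow_one]
  have hqx : 0 ≤ (1 - p) * x := mul_nonneg (by linarith) hx0
  have h6 : (1 + (1 - p) * x) * (1 - x) ^ (1 - p) ≤ 1 := by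
    calc (1 + (1 - p) * x) * (1 - x) ^ (1 - p)
        ≤ (1 + (1 - p) * x) * (1 + (1 - p) * (-x)) :=
          mul_le_mul_of_nonneg_left h2 (by linarith)
      _ = 1 - ((1 - p) * x) ^ 2 := by ring
      _ ≤ 1 := by
          have := sq_nonneg ((1 - p) * x)
          linarith
  have h7 : (1 - x) * (1 + (1 - p) * x) * (1 - x) ^ (1 - p) ≤ (1 - x) ^ p * (1 - x) ^ (1 - p) := by
    rw [h5]
    calc (1 - x) * (1 + (1 - p) * x) * (1 - x) ^ (1 - p)
        = (1 - x) * ((1 + (1 - p) * x) * (1 - x) ^ (1 - p)) := by ring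
      _ ≤ (1 - x) * 1 := mul_le_mul_of_nonneg_left h6 h1.le
      _ = 1 - x := mul_one _
  exact le_of_mul_le_mul_right h7 h4

/-- the two bounds for the shifted test function -/
private theorem shb {p σ : ℝ} (hp0 : 0 < p) (hp1 : p < 1) (hσ : 0 < σ) (i : ℕ) :
    gg p σ i * ((1 - p / ((i : ℝ) + 1) - (1 - p) / ((i : ℝ) + 1) ^ 2) * (1 + σ)) ≤ sh (gg p σ) i ∧
      sh (gg p σ) i ≤ gg p σ i * Real.exp σ := by
  have hgp : 0 < gg p σ i := by
    unfold gg
    positivity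
  rcases i with _ | i
  · constructor
    · have e : (1 - p / (((0 : ℕ) : ℝ) + 1) - (1 - p) / (((0 : ℕ) : ℝ) + 1) ^ 2) * (1 + σ) = 0 := by
        push_cast
        ring
      rw [e, mul_zero]
      simp [sh]
    · simp only [sh, if_true]
      positivity
  · have hk : (0 : ℝ) < (i : ℝ) + 1 + 1 := by positivity
    have hk1 : (0 : ℝ) < (i : ℝ) + 1 := by positivity
    set x : ℝ := 1 / ((i : ℝ) + 1 + 1) with hx
    have hx0 : 0 ≤ x := by positivity
    have hx1 : x < 1 := by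
      rw [hx, div_lt_one hk]
      linarith
    have e1 : (i : ℝ) + 1 = ((i : ℝ) + 1 + 1) * (1 - x) := by
      rw [hx]
      field_simp
      ring
    have hs : sh (gg p σ) (i + 1) = gg p σ (i + 1) * ((1 - x) ^ p * Real.exp σ) := by
      simp only [sh, Nat.add_eq_zero_iff, one_ne_zero, and_false, if_false, Nat.add_sub_cancel]
      unfold gg
      push_cast
      have e2 : ((i : ℝ) + 1) ^ p = ((i : ℝ) + 1 + 1) ^ p * (1 - x) ^ p := by
        rw [← Real.mul_rpow hk.le (by linarith), ← e1]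
      have e3 : Real.exp (-(σ * ((i : ℝ) + 1))) =
          Real.exp (-(σ * ((i : ℝ) + 1 + 1))) * Real.exp σ := by
        rw [← Real.exp_add]
        congr 1
        ring
      rw [e2, e3]
      ring
    have hb := bern hp0 hp1 hx0 hx1
    have e4 : 1 - p / (((i + 1 : ℕ) : ℝ) + 1) - (1 - p) / (((i + 1 : ℕ) : ℝ) + 1) ^ 2 =
        (1 - x) * (1 + (1 - p) * x) := by
      rw [hx]
      push_cast
      field_simp
      ring
    rw [hs, e4]
    constructor
    · refine mul_le_mul_of_nonneg_left ?_ hgp.le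
      refine mul_le_mul hb ?_ (by linarith) (by
        refine le_trans ?_ hb
        have : 0 ≤ (1 - p) * x := mul_nonneg (by linarith) hx0
        exact mul_nonneg (by linarith) (by linarith))
      have := Real.add_one_le_exp σ
      linarith
    · refine mul_le_mul_of_nonneg_left ?_ hgp.le
      have h1 : (1 - x) ^ p ≤ 1 := Real.rpow_le_one (by linarith) (by linarith) hp0.le
      calc (1 - x) ^ p * Real.exp σ ≤ 1 * Real.exp σ :=
            mul_le_mul_of_nonneg_right h1 (Real.exp_pos σ).le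
        _ = Real.exp σ := one_mul _

/-- MODULE PT. -/
theorem hPT : StPT := by
  intro s σ i hs0 hs1 hσ0 hσs hσ1
  obtain ⟨p, hp⟩ : ∃ p : ℝ, p = (1 - s) / (1 + s) := ⟨_, rfl⟩
  rw [← hp]
  have hp0 : 0 < p := by rw [hp]; exact div_pos (by linarith) (by linarith)
  have hp1 : p < 1 := by rw [hp, div_lt_one (by linarith)]; linarith
  obtain ⟨k, hk⟩ : ∃ k : ℝ, k = (i : ℝ) + 1 := ⟨_, rfl⟩
  have hk1 : 1 ≤ k := by rw [hk]; have : (0 : ℝ) ≤ i := Nat.cast_nonneg i; linarith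
  have hk0 : 0 < k := by linarith
  obtain ⟨hb1, hb2⟩ := shb hp0 hp1 hσ0 i
  obtain ⟨g, hg⟩ : ∃ g : ℝ, g = gg p σ i := ⟨_, rfl⟩
  obtain ⟨S, hS⟩ : ∃ S : ℝ, S = sh (gg p σ) i := ⟨_, rfl⟩
  have hg0 : 0 < g := by
    rw [hg]
    unfold gg
    positivity
  have hg2 : g ^ 2 = k ^ 2 * (k ^ (2 * p - 2) * Real.exp (-(2 * (σ * k)))) := by
    rw [hg]
    unfold gg
    rw [← hk, mul_pow, ← Real.rpow_natCast (k ^ p) 2, ← Real.rpow_mul hk0.le, ← Real.exp_nat_mul,
      ← mul_assoc, ← Real.rpow_natCast k 2, ← Real.rpow_add hk0]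
    push_cast
    congr 2
    · ring
    · ring
  rw [← hk, ← hg, ← hS] at hb1
  rw [← hg, ← hS] at hb2
  rw [← hg, ← hS, ← hk]
  -- the numbers
  obtain ⟨a, ha⟩ : ∃ a : ℝ, a = 1 / k := ⟨_, rfl⟩
  have ha0 : 0 < a := by rw [ha]; positivity
  have ha1 : a ≤ 1 := by rw [ha, div_le_one hk0]; exact hk1
  have hka : k * a = 1 := by rw [ha]; field_simp
  obtain ⟨e, he⟩ : ∃ e : ℝ, e = (1 - p) * a ^ 2 + σ * (p * a + (1 - p) * a ^ 2) := ⟨_, rfl⟩
  obtain ⟨d, hd⟩ : ∃ d : ℝ, d = p * a - σ + e := ⟨_, rfl⟩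
  have hq : 0 < 1 - p := by linarith
  have he0 : 0 ≤ e := by rw [he]; positivity
  have hD1 : g - S ≤ g * d := by
    have e1 : (1 - p / k - (1 - p) / k ^ 2) * (1 + σ) = 1 - d := by
      rw [hd, he, ha]
      field_simp
      ring
    rw [e1] at hb1
    linarith
  have hexp : Real.exp σ ≤ 1 + σ / s := by
    have h1 := Real.abs_exp_sub_one_sub_id_le (x := σ) (by rw [abs_of_pos hσ0]; linarith)
    have h2 := (abs_le.1 h1).2
    have h3 : σ * (1 + σ) ≤ σ * (1 / s) := by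
      refine mul_le_mul_of_nonneg_left ?_ hσ0.le
      have : (1 - s) / s = 1 / s - 1 := by field_simp
      rw [this] at hσ1
      linarith
    have h4 : σ * (1 / s) = σ / s := by ring
    have h5 : σ * (1 + σ) = σ + σ ^ 2 := by ring
    rw [h4, h5] at h3
    linarith
  have hD2 : -(g * (σ / s)) ≤ g - S := by
    have h1 : g * Real.exp σ ≤ g * (1 + σ / s) := mul_le_mul_of_nonneg_left hexp hg0.le
    have h2 : g * (1 + σ / s) = g + g * (σ / s) := by ring
    linarith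
  have hτ : 0 < σ / s := div_pos hσ0 hs0
  obtain ⟨τ, hτd⟩ : ∃ τ : ℝ, τ = σ / s := ⟨_, rfl⟩
  rw [← hτd] at hD2 hτ ⊢
  have hστ : σ = s * τ := by rw [hτd]; field_simp
  have hA : 2 * τ * g * (g - S) + (g - S) ^ 2 ≤ g ^ 2 * (2 * τ * d + d ^ 2) := by
    have h1 : 0 ≤ (g * d - (g - S)) * (2 * (g * τ) + (g - S) + g * d) :=
      mul_nonneg (by linarith) (by linarith)
    have h2 : (g * d - (g - S)) * (2 * (g * τ) + (g - S) + g * d) =
        g ^ 2 * (2 * τ * d + d ^ 2) - (2 * τ * g * (g - S) + (g - S) ^ 2) := by ring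
    linarith
  -- the error term
  have hke : k ^ 2 * e ≤ 1 + σ * k := by
    have h1 : k ^ 2 * e = (1 - p) * (k * a) ^ 2 + σ * (p * (k * a) * k + (1 - p) * (k * a) ^ 2) := by
      rw [he]; ring
    rw [h1, hka]
    have h2 : 0 ≤ σ * (1 - p) * (k - 1) := mul_nonneg (mul_pos hσ0 hq).le (by linarith)
    have h3 : (1 - p) * (1 : ℝ) ^ 2 + σ * (p * 1 * k + (1 - p) * (1 : ℝ) ^ 2) =
        1 - p + σ * k - σ * (1 - p) * (k - 1) := by ring
    rw [h3]
    linarith
  have hke0 : 0 ≤ k ^ 2 * e := by positivity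
  have heb : e ≤ a + σ * a := by
    have h1 : a ^ 2 ≤ a := by rw [sq]; exact mul_le_of_le_one_left ha0.le ha1
    have h2 : (1 - p) * a ^ 2 ≤ (1 - p) * a := mul_le_mul_of_nonneg_left h1 hq.le
    have h3 : σ * (p * a + (1 - p) * a ^ 2) ≤ σ * a := by
      refine mul_le_mul_of_nonneg_left ?_ hσ0.le
      linarith
    rw [he]
    have h4 : (1 - p) * a = a - p * a := by ring
    have h5 := mul_pos hp0 ha0
    linarith
  have hZ : 2 * τ + 2 * (p * a - σ) + e ≤ 3 * (τ + a) := by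
    have h1 : σ * a ≤ σ := mul_le_of_le_one_right hσ0.le ha1
    have h2 : p * a ≤ a := mul_le_of_le_one_left ha0.le hp1.le
    linarith
  have hE : k ^ 2 * (2 * τ * e + 2 * (p * a - σ) * e + e ^ 2) ≤ 3 * ((1 + σ * k) * (τ + a)) := by
    have h1 : k ^ 2 * e * (2 * τ + 2 * (p * a - σ) + e) ≤ k ^ 2 * e * (3 * (τ + a)) :=
      mul_le_mul_of_nonneg_left hZ hke0
    have h2 : k ^ 2 * e * (3 * (τ + a)) ≤ (1 + σ * k) * (3 * (τ + a)) :=
      mul_le_mul_of_nonneg_right hke (by linarith)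
    have h3 : k ^ 2 * (2 * τ * e + 2 * (p * a - σ) * e + e ^ 2) =
        k ^ 2 * e * (2 * τ + 2 * (p * a - σ) + e) := by ring
    have h4 : (1 + σ * k) * (3 * (τ + a)) = 3 * ((1 + σ * k) * (τ + a)) := by ring
    linarith
  have hM : k ^ 2 * (σ ^ 2 + 2 * τ * (p * a - σ) + (p * a - σ) ^ 2) =
      p ^ 2 + 2 * p * ((1 - s) * τ) * k - 2 * ((1 - s) * τ) * σ * k ^ 2 := by
    have h1 : k ^ 2 * (σ ^ 2 + 2 * τ * (p * a - σ) + (p * a - σ) ^ 2) =
        p ^ 2 * (k * a) ^ 2 + 2 * p * (τ - σ) * k * (k * a) - 2 * (τ - σ) * σ * k ^ 2 := by ring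
    rw [h1, hka, hστ]
    ring
  have hs1' : 0 < 1 - s := by linarith
  have hfin : 2 * s / (1 - s) * (k ^ 2 * (σ ^ 2 + 2 * τ * d + d ^ 2)) ≤
      p * (1 - p) + 4 * p * (σ * k) - 4 * (σ * k) ^ 2 +
        6 * s / (1 - s) * (1 + σ * k) * (τ + 1 / k) := by
    have h1 : k ^ 2 * (σ ^ 2 + 2 * τ * d + d ^ 2) =
        k ^ 2 * (σ ^ 2 + 2 * τ * (p * a - σ) + (p * a - σ) ^ 2) +
          k ^ 2 * (2 * τ * e + 2 * (p * a - σ) * e + e ^ 2) := by
      rw [hd]; ring
    have h2 : 2 * s / (1 - s) * (k ^ 2 * (σ ^ 2 + 2 * τ * (p * a - σ) + (p * a - σ) ^ 2)) =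
        p * (1 - p) + 4 * p * (σ * k) - 4 * (σ * k) ^ 2 := by
      rw [hM]
      have h3 : 2 * s / (1 - s) * p ^ 2 = p * (1 - p) := by
        rw [hp]
        field_simp
        ring
      have h4 : 2 * s / (1 - s) * (2 * p * ((1 - s) * τ) * k) = 4 * p * (σ * k) := by
        rw [hστ]
        field_simp
        ring
      have h5 : 2 * s / (1 - s) * (2 * ((1 - s) * τ) * σ * k ^ 2) = 4 * (σ * k) ^ 2 := by
        rw [hστ]
        field_simp
        ring
      rw [mul_sub, mul_add, h3, h4, h5]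
    have h6 : 2 * s / (1 - s) * (k ^ 2 * (2 * τ * e + 2 * (p * a - σ) * e + e ^ 2)) ≤
        6 * s / (1 - s) * (1 + σ * k) * (τ + 1 / k) := by
      have h7 : 0 ≤ 2 * s / (1 - s) := by positivity
      have h8 := mul_le_mul_of_nonneg_left hE h7
      have h9 : 2 * s / (1 - s) * (3 * ((1 + σ * k) * (τ + a))) =
          6 * s / (1 - s) * (1 + σ * k) * (τ + 1 / k) := by
        rw [ha]; ring
      linarith
    rw [h1, mul_add, h2]
    linarith
  have hW : 0 < k ^ (2 * p - 2) * Real.exp (-(2 * (σ * k))) := by positivity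
  have hc : 0 ≤ 2 * s / (1 - s) := by positivity
  calc 2 * s / (1 - s) * (σ ^ 2 * g ^ 2 + 2 * τ * g * (g - S) + (g - S) ^ 2)
      ≤ 2 * s / (1 - s) * (g ^ 2 * (σ ^ 2 + 2 * τ * d + d ^ 2)) := by
        refine mul_le_mul_of_nonneg_left ?_ hc
        have h1 : g ^ 2 * (σ ^ 2 + 2 * τ * d + d ^ 2) =
            σ ^ 2 * g ^ 2 + g ^ 2 * (2 * τ * d + d ^ 2) := by ring
        linarith
    _ = k ^ (2 * p - 2) * Real.exp (-(2 * (σ * k))) *
          (2 * s / (1 - s) * (k ^ 2 * (σ ^ 2 + 2 * τ * d + d ^ 2))) := by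
        rw [hg2]; ring
    _ ≤ _ := mul_le_mul_of_nonneg_left hfin hW.le

end Pool.Agent.Helper3.KE
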